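import Pool.Agent.Helper83_CNED.Stmt

/-!
Modules RANGE, EVEN, BOXU, NULL of squad CNED.
-/

open MeasureTheory Set Topology Filter

open scoped ENNReal

noncomputable section

namespace Pool.Agent.Helper83_CNED.H26

/-- an odd label has an odd parent label -/
theorem odd_par (h : ChildStmt) {m : ℕ} {z : Fin 3 → ℤ} (hz : Odd (lab (m + 1) z)) :
    Odd (lab m (par (MM m) z)) := by
  rcases Int.even_or_odd (lab m (par (MM m) z)) with he | ho
  · exfalso
    rw [h.1 m z he] at hz
    exact (Int.not_odd_iff_even.2 (even_two_mul _)) hz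
  · exact ho

theorem lab_zero (z : Fin 3 → ℤ) : lab 0 z = min 2 (max |z 0| (max |z 1| |z 2|)) := rfl

/-- RANGE -/
theorem range (h : ChildStmt) : RangeStmt := by
  intro m
  induction m with
  | zero =>
    intro z hz j
    have hR : (RR 0 : ℤ) = 1 := rfl
    rw [hR]
    rw [lab_zero] at hz
    have h1 : max |z 0| (max |z 1| |z 2|) < 2 := by
      by_contra hcon
      rw [min_eq_left (not_lt.1 hcon)] at hz
      exact absurd hz (by decide)
    have h0 : |z 0| < 2 := lt_of_le_of_lt (le_max_left _ _) h1
    have h2 : |z 1| < 2 := lt_of_le_of_lt ((le_max_left _ _).trans (le_max_right _ _)) h1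
    have h3 : |z 2| < 2 := lt_of_le_of_lt ((le_max_right _ _).trans (le_max_right _ _)) h1
    have key : |z j| < 2 := by
      fin_cases j
      · exact h0
      · exact h2
      · exact h3
    rw [abs_lt] at key
    omega
  | succ m ih =>
    intro z hz j
    have h1 := ih (par (MM m) z) (odd_par h hz) j
    have hM : (0 : ℤ) < MM m := by exact_mod_cast MM_pos m
    have hR : (RR (m + 1) : ℤ) = RR m * MM m := by rw [RR_succ]; push_cast; rfl
    unfold par at h1
    obtain ⟨h2, h3⟩ := h1
    rw [Int.le_ediv_iff_mul_le hM] at h2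
    rw [Int.ediv_lt_iff_lt_mul hM] at h3
    rw [hR]
    constructor
    · linarith
    · linarith

/-- BOXU -/
theorem boxU : BoxUStmt := by
  intro m a b hab
  have hR := RRr_pos m
  have hsub : ob (fun j => (a j : ℝ) / RR m) (fun j => (b j : ℝ) / RR m) ⊆
      {x : Eu 3 | Even (lab m (idx m x))} := by
    intro x hx
    apply hab
    intro j
    obtain ⟨h1, h2⟩ := hx j
    simp only at h1 h2
    rw [div_lt_iff₀ hR] at h1
    rw [lt_div_iff₀ hR] at h2
    unfold idx
    constructor
    · apply Int.le_floor.2
      rw [mul_comm]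
      exact h1.le
    · apply Int.floor_lt.2
      rw [mul_comm]
      exact h2
  intro x hx
  refine mem_iUnion.2 ⟨m, ?_⟩
  exact interior_maximal hsub (isOpen_ob _ _) hx

/-- EVEN -/
theorem even (h : ChildStmt) : EvenStmt := by
  constructor
  · intro x hx
    obtain ⟨m₀, hm⟩ := mem_iUnion.1 hx
    refine ⟨m₀, ?_⟩
    have h0' : x ∈ {x : Eu 3 | Even (lab m₀ (idx m₀ x))} := interior_subset hm
    have h0 : Even (lab m₀ (idx m₀ x)) := h0'
    intro m hmm
    induction m, hmm using Nat.le_induction with
    | base => exact h0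
    | succ m _ ih =>
      rw [← idx_par] at ih
      rw [h.1 m (idx (m + 1) x) ih]
      exact even_two_mul _
  · intro x hx
    have hR : ((RR 0 : ℕ) : ℝ) = 1 := by
      show ((1 : ℕ) : ℝ) = 1
      norm_num
    have key : ∀ y : Eu 3, (∃ j, y j < -1 ∨ 2 < y j) → Even (lab 0 (idx 0 y)) := by
      rintro y ⟨j, hj⟩
      have h2 : 2 ≤ |idx 0 y j| := by
        unfold idx
        rw [hR, one_mul]
        rcases hj with hj | hj
        · have h3 : ⌊y j⌋ < -1 := Int.floor_lt.2 (by push_cast; exact hj)
          have h4 : ⌊y j⌋ ≤ -2 := by omega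
          rw [abs_of_neg (by omega)]
          omega
        · have h3 : 2 ≤ ⌊y j⌋ := Int.le_floor.2 (by push_cast; exact hj.le)
          rw [abs_of_nonneg (by omega)]
          exact h3
      have h5 : 2 ≤ max |idx 0 y 0| (max |idx 0 y 1| |idx 0 y 2|) := by
        fin_cases j
        · exact le_max_of_le_left h2
        · exact le_max_of_le_right (le_max_of_le_left h2)
        · exact le_max_of_le_right (le_max_of_le_right h2)
      rw [lab_zero, min_eq_left h5]
      exact even_two
    refine mem_iUnion.2 ⟨0, ?_⟩
    have hopen : IsOpen {y : Eu 3 | ∃ j, y j < -1 ∨ 2 < y j} := by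
      have : {y : Eu 3 | ∃ j, y j < -1 ∨ 2 < y j} =
          ⋃ j, ({y : Eu 3 | y j < -1} ∪ {y : Eu 3 | 2 < y j}) := by
        ext y; simp
      rw [this]
      apply isOpen_iUnion
      intro j
      have hj : Continuous (fun x : Eu 3 => x j) := by fun_prop
      exact (isOpen_lt hj continuous_const).union (isOpen_lt continuous_const hj)
    exact interior_maximal (fun y hy => key y hy) hopen hx

/-- NULL -/
theorem null (hG : GoodStmt) (hC : ChildStmt) : NullStmt := by
  unfold NullStmt
  have hsub : ∀ᵐ p : Eu 3, p ∈ UU := by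
    filter_upwards [hG] with p hp
    have h1 : ∀ᶠ m in atTop, ∀ j, GoodC m (p j) := eventually_all.2 hp
    obtain ⟨m, hm⟩ := h1.exists
    refine boxU (m + 1) (idx (m + 1) p) (fun j => idx (m + 1) p j + 1) ?_ ?_
    · intro z hz
      have hz' : z = idx (m + 1) p := by
        funext j
        have := hz j
        omega
      subst hz'
      rw [hC.2.2 m (idx (m + 1) p) (fun j => (hm j).1)]
      exact even_two_mul _
    · intro j
      have hR := RRr_pos (m + 1)
      rw [div_lt_iff₀ hR, lt_div_iff₀ hR]
      have h2 := (hm j).2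
      unfold idx
      constructor
      · rw [mul_comm (p j)]
        exact lt_of_le_of_ne (Int.floor_le _) (fun he => h2 _ he.symm)
      · push_cast
        rw [mul_comm (p j)]
        exact Int.lt_floor_add_one _
  exact hsub

end Pool.Agent.Helper83_CNED.H26
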